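import Pool.Graph.R_seed8.R645.TM.Pres

/-! Thompson's group `F`, given by its infinite presentation, and its Cayley 2-complex. -/

set_option autoImplicit false

namespace Pool.Agent.H346.TH

open Pool.Agent.R645.TM

/-- The index set of the relators: pairs `k < n`. -/
abbrev Ix : Type := {p : ℕ × ℕ // p.1 < p.2}

/-- The relator `x_k⁻¹ x_n x_k x_{n+1}⁻¹` for `k < n`, as a word: `(i, true)` is the letter `x_i`
and `(i, false)` is the letter `x_i⁻¹`. -/
def rel (p : Ix) : List (ℕ × Bool) :=
  [(p.1.1, false), (p.1.2, true), (p.1.1, true), (p.1.2 + 1, false)]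

/-- Thompson's group `F`, given by the presentation `P_∞` with the generators `x_0, x_1, x_2, ...`
and the relations `x_k⁻¹ x_n x_k = x_{n+1}` for `k < n`. -/
abbrev ThF : Type := PresentedGroup (Set.range fun p : Ix => FreeGroup.mk (rel p))

/-- the generator `x_n` -/
def x (n : ℕ) : ThF := PresentedGroup.of n

/-- The list of signed edges traversed when a word is read starting at the vertex `g` of the Cayley
graph; the edge `(g, n)` goes from `g` to `g x_n`. -/
def walk : ThF → List (ℕ × Bool) → List ((ThF × ℕ) × Bool)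
  | _, [] => []
  | g, (n, true) :: l => ((g, n), true) :: walk (g * x n) l
  | g, (n, false) :: l => ((g * (x n)⁻¹, n), false) :: walk (g * (x n)⁻¹) l

/-- The Cayley 2-complex of the presentation `P_∞`: its vertices are the elements of the group,
there is one edge `(g, n)` from `g` to `g x_n` for each `g` and `n`, and one 2-cell `(g, r)` for each
`g` and each relator `r`, attached along the path which starts at `g` and reads `r`. -/
abbrev Cay : Cx.{0} where
  V := ThF
  E := ThF × ℕ
  F := ThF × Ix
  src z := z.1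
  tgt z := z.1 * x z.2
  bd f := walk f.1 (rel f.2)

/-! The generators are different. -/

/-- the piecewise linear map attached to `x_n` -/
def fw (n : ℕ) (t : ℚ) : ℚ := if t ≤ n then t else if t ≤ n + 1 then 2 * t - n else t + 1

/-- its inverse -/
def bw (n : ℕ) (t : ℚ) : ℚ := if t ≤ n then t else if t ≤ n + 2 then (t + n) / 2 else t - 1

/-- the permutation of the rational numbers attached to `x_n` -/
def pn (n : ℕ) : Equiv.Perm ℚ where
  toFun := fw n
  invFun := bw n
  left_inv t := by
    unfold fw bw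
    split_ifs <;> linarith
  right_inv t := by
    unfold fw bw
    split_ifs <;> linarith

theorem pn_rel {k n : ℕ} (h : k < n) (t : ℚ) : fw k (fw n t) = fw (n + 1) (fw k t) := by
  have h1 : (k : ℚ) + 1 ≤ n := by exact_mod_cast h
  unfold fw
  push_cast
  split_ifs <;> linarith

/-- the action of Thompson's group (on the right) -/
def act : ThF →* (Equiv.Perm ℚ)ᵐᵒᵖ := PresentedGroup.toGroup (f := fun n => MulOpposite.op (pn n)) (by
  rintro _ ⟨⟨⟨k, n⟩, h⟩, rfl⟩
  have h1 : (FreeGroup.mk (rel ⟨(k, n), h⟩)) = (FreeGroup.of k)⁻¹ * FreeGroup.of n * FreeGroup.of k *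
      (FreeGroup.of (n + 1))⁻¹ := rfl
  show FreeGroup.lift (fun n => MulOpposite.op (pn n)) (FreeGroup.mk (rel ⟨(k, n), h⟩)) = 1
  rw [h1]
  simp only [map_mul, map_inv, FreeGroup.lift_apply_of]
  rw [mul_inv_eq_one, mul_assoc, inv_mul_eq_iff_eq_mul, ← MulOpposite.op_mul, ← MulOpposite.op_mul]
  congr 1
  exact Equiv.ext (fun t => pn_rel h t))

theorem act_x (n : ℕ) : act (x n) = MulOpposite.op (pn n) := PresentedGroup.toGroup.of _

theorem x_inj {m n : ℕ} (h : x m = x n) : m = n := by
  by_contra hne
  have key : ∀ a b : ℕ, a < b → pn a ≠ pn b := by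
    intro a b hab he
    have h1 := congrArg (fun q : Equiv.Perm ℚ => q ((a : ℚ) + 1)) he
    have h2 : (a : ℚ) + 1 ≤ b := by exact_mod_cast hab
    change fw a ((a : ℚ) + 1) = fw b ((a : ℚ) + 1) at h1
    unfold fw at h1
    rw [if_neg (by linarith), if_pos (le_refl _), if_pos h2] at h1
    linarith
  have h3 := congrArg (fun g => (act g).unop) h
  simp only [act_x, MulOpposite.unop_op] at h3
  rcases Nat.lt_or_gt_of_ne hne with h4 | h4
  · exact key _ _ h4 h3
  · exact key _ _ h4 h3.symm

/-- the relation `x_n x_k = x_k x_{n+1}` -/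
theorem rel_x {k n : ℕ} (h : k < n) : x n * x k = x k * x (n + 1) := by
  have h1 : PresentedGroup.mk (Set.range fun p : Ix => FreeGroup.mk (rel p))
      (FreeGroup.mk (rel ⟨(k, n), h⟩)) = 1 := PresentedGroup.one_of_mem ⟨_, rfl⟩
  have h2 : (FreeGroup.mk (rel ⟨(k, n), h⟩)) = (FreeGroup.of k)⁻¹ * FreeGroup.of n * FreeGroup.of k *
      (FreeGroup.of (n + 1))⁻¹ := rfl
  rw [h2] at h1
  simp only [map_mul, map_inv] at h1
  rw [mul_inv_eq_one, mul_assoc, inv_mul_eq_iff_eq_mul] at h1
  exact h1

/-- for a finite set of vertices, `g x_m` is not in the set for large `m` -/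
theorem far (A : Set ThF) (hA : A.Finite) (g h : ThF) : ∃ M : ℕ, ∀ m, M ≤ m → g * x m * h ∉ A := by
  have hinj : Function.Injective fun m : ℕ => g * x m * h := by
    intro a b hab
    exact x_inj (mul_left_cancel (mul_right_cancel hab))
  have hf : {m : ℕ | g * x m * h ∈ A}.Finite := hA.preimage hinj.injOn
  obtain ⟨M, hM⟩ := hf.bddAbove
  refine ⟨M + 1, fun m hm hc => ?_⟩
  have := hM hc
  omega

end Pool.Agent.H346.TH
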