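import Pool.Agent.H346.TH.Defs

/-! Values of functions on the edges of the Cayley graph along words; relations are satisfied far
away. -/

set_option autoImplicit false

namespace Pool.Agent.H346.TH

variable {Γ : Type} [Group Γ] (ε : ThF → ℕ → Γ)

/-- the quotient map -/
abbrev q : FreeGroup ℕ →* ThF := PresentedGroup.mk _

theorem q_of (n : ℕ) : q (FreeGroup.of n) = x n := rfl

/-- the permutation attached to a generator -/
def stepP (n : ℕ) : Equiv.Perm (ThF × Γ) where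
  toFun z := (z.1 * x n, z.2 * ε z.1 n)
  invFun z := (z.1 * (x n)⁻¹, z.2 * (ε (z.1 * (x n)⁻¹) n)⁻¹)
  left_inv z := by
    ext
    · exact mul_inv_cancel_right _ _
    · show z.2 * ε z.1 n * (ε (z.1 * x n * (x n)⁻¹) n)⁻¹ = z.2
      rw [mul_inv_cancel_right, mul_inv_cancel_right]
  right_inv z := by
    ext
    · exact inv_mul_cancel_right _ _
    · show z.2 * (ε (z.1 * (x n)⁻¹) n)⁻¹ * ε (z.1 * (x n)⁻¹) n = z.2
      rw [inv_mul_cancel_right]

/-- the right action on `ThF × Γ` -/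
def thet : FreeGroup ℕ →* (Equiv.Perm (ThF × Γ))ᵐᵒᵖ :=
  FreeGroup.lift (fun n => MulOpposite.op (stepP ε n))

/-- the value along the word `w` read from the vertex `v` -/
def ev (v : ThF) (w : FreeGroup ℕ) : Γ := ((thet ε w).unop (v, 1)).2

theorem thet_apply (w : FreeGroup ℕ) : ∀ (v : ThF) (γ : Γ),
    (thet ε w).unop (v, γ) = (v * q w, γ * ev ε v w) := by
  have hmul : ∀ w w' : FreeGroup ℕ, ∀ z, (thet ε (w * w')).unop z =
      (thet ε w').unop ((thet ε w).unop z) := by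
    intro w w' z
    rw [map_mul]
    rfl
  induction w using FreeGroup.induction_on with
  | C1 =>
    intro v γ
    unfold ev
    rw [map_one]
    simp
  | of n =>
    intro v γ
    unfold ev thet
    rw [FreeGroup.lift_apply_of]
    show (v * x n, γ * ε v n) = (v * x n, γ * (1 * ε v n))
    rw [one_mul]
  | inv_of n _ =>
    intro v γ
    unfold ev thet
    rw [map_inv, FreeGroup.lift_apply_of, map_inv]
    show (v * (x n)⁻¹, γ * (ε (v * (x n)⁻¹) n)⁻¹) =
      (v * (x n)⁻¹, γ * (1 * (ε (v * (x n)⁻¹) n)⁻¹))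
    rw [one_mul]
  | mul w w' h h' =>
    intro v γ
    have e1 : ev ε v (w * w') = ev ε v w * ev ε (v * q w) w' := by
      show ((thet ε (w * w')).unop (v, 1)).2 = _
      rw [hmul, h, h', one_mul]
    rw [hmul, h, h', e1, map_mul, mul_assoc, mul_assoc]

theorem ev_mul (v : ThF) (w w' : FreeGroup ℕ) :
    ev ε v (w * w') = ev ε v w * ev ε (v * q w) w' := by
  show ((thet ε (w * w')).unop (v, 1)).2 = _
  rw [map_mul]
  show ((thet ε w').unop ((thet ε w).unop (v, 1))).2 = _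
  rw [thet_apply, thet_apply, one_mul]

theorem ev_one (v : ThF) : ev ε v 1 = 1 := by
  unfold ev
  rw [map_one]
  rfl

theorem ev_of (v : ThF) (n : ℕ) : ev ε v (FreeGroup.of n) = ε v n := by
  unfold ev thet
  rw [FreeGroup.lift_apply_of]
  show 1 * ε v n = ε v n
  rw [one_mul]

theorem ev_inv (v : ThF) (w : FreeGroup ℕ) :
    ev ε v w⁻¹ = (ev ε (v * (q w)⁻¹) w)⁻¹ := by
  have h := ev_mul ε v w⁻¹ w
  rw [inv_mul_cancel, ev_one, map_inv] at h
  exact eq_inv_of_mul_eq_one_left h.symm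

theorem ev_inv' (v : ThF) (w : FreeGroup ℕ) :
    ev ε (v * q w) w⁻¹ = (ev ε v w)⁻¹ := by
  rw [ev_inv, mul_inv_cancel_right]

/-- the values of the relators, read at vertices outside a finite set, are trivial -/
def Coc (A : Set ThF) : Prop := ∀ (a : ThF) {k n : ℕ}, k < n → a ∉ A → a * x k ∉ A → a * x n ∉ A →
  a * x n * x k ∉ A → ε a k * ε (a * x k) (n + 1) = ε a n * ε (a * x n) k

variable {ε}

theorem rel_val {A : Set ThF} (hε : Coc ε A) (v : ThF) (p : Ix) (h0 : v ∉ A)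
    (h1 : v * (x p.1.1)⁻¹ ∉ A) (h2 : v * (x p.1.1)⁻¹ * x p.1.2 ∉ A)
    (h3 : v * (x p.1.1)⁻¹ * x p.1.2 * x p.1.1 ∉ A) : ev ε v (FreeGroup.mk (rel p)) = 1 := by
  obtain ⟨⟨k, n⟩, hkn⟩ := p
  have e1 : (FreeGroup.mk (rel ⟨(k, n), hkn⟩)) = (FreeGroup.of k)⁻¹ * FreeGroup.of n *
      FreeGroup.of k * (FreeGroup.of (n + 1))⁻¹ := rfl
  dsimp only at h1 h2 h3
  obtain ⟨a, rfl⟩ : ∃ a, v = a * x k := ⟨v * (x k)⁻¹, (inv_mul_cancel_right _ _).symm⟩
  rw [mul_inv_cancel_right] at h1 h2 h3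
  have h4 := hε a hkn h1 h0 h2 h3
  have f1 : ev ε (a * x k) (FreeGroup.of k)⁻¹ = (ε a k)⁻¹ := by
    rw [ev_inv, q_of, mul_inv_cancel_right, ev_of]
  have f2 : a * x k * q (FreeGroup.of k)⁻¹ = a := by
    rw [map_inv, q_of, mul_inv_cancel_right]
  have f3 : a * x n * x k = a * x k * x (n + 1) := by
    rw [mul_assoc, rel_x hkn, ← mul_assoc]
  have f4 : ev ε (a * x k * x (n + 1)) (FreeGroup.of (n + 1))⁻¹ = (ε (a * x k) (n + 1))⁻¹ := by
    rw [ev_inv, q_of, mul_inv_cancel_right, ev_of]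
  have f5 : a * x k * q ((FreeGroup.of k)⁻¹ * FreeGroup.of n * FreeGroup.of k) =
      a * x k * x (n + 1) := by
    rw [map_mul, map_mul, ← mul_assoc, ← mul_assoc, f2, q_of, q_of, f3]
  have f6 : a * x k * q ((FreeGroup.of k)⁻¹ * FreeGroup.of n) = a * x n := by
    rw [map_mul, ← mul_assoc, f2, q_of]
  rw [e1, ev_mul, f5, f4, ev_mul, f6, ev_of, ev_mul, f2, ev_of, f1, mul_inv_eq_one, mul_assoc,
    inv_mul_eq_iff_eq_mul]
  exact h4.symm

theorem sup_one {A : Set ThF} (hA : A.Finite) (hε : Coc ε A) (w : FreeGroup ℕ) (hw : q w = 1) :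
    ∀ u h : ThF, ∃ M : ℕ, ∀ m, M ≤ m → ev ε (u * x m * h) w = 1 := by
  have hw' : w ∈ Subgroup.normalClosure (Set.range fun p : Ix => FreeGroup.mk (rel p)) :=
    PresentedGroup.mk_eq_one_iff.1 hw
  clear hw
  induction hw' using Subgroup.closure_induction with
  | mem y hy =>
    intro u h
    rw [Group.mem_conjugatesOfSet_iff] at hy
    obtain ⟨r, ⟨p, rfl⟩, hr⟩ := hy
    rw [isConj_iff] at hr
    obtain ⟨g, rfl⟩ := hr
    obtain ⟨M0, h0⟩ := far A hA u (h * q g)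
    obtain ⟨M1, h1⟩ := far A hA u (h * q g * (x p.1.1)⁻¹)
    obtain ⟨M2, h2⟩ := far A hA u (h * q g * (x p.1.1)⁻¹ * x p.1.2)
    obtain ⟨M3, h3⟩ := far A hA u (h * q g * (x p.1.1)⁻¹ * x p.1.2 * x p.1.1)
    refine ⟨M0 + M1 + M2 + M3, fun m hm => ?_⟩
    have k0 := h0 m (by omega)
    have k1 := h1 m (by omega)
    have k2 := h2 m (by omega)
    have k3 := h3 m (by omega)
    have h4 := rel_val hε (u * x m * h * q g) p (by simpa only [mul_assoc] using k0)
      (by simpa only [mul_assoc] using k1) (by simpa only [mul_assoc] using k2)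
      (by simpa only [mul_assoc] using k3)
    have h5 : q (FreeGroup.mk (rel p)) = 1 := PresentedGroup.one_of_mem ⟨p, rfl⟩
    show ev ε (u * x m * h) (g * FreeGroup.mk (rel p) * g⁻¹) = 1
    rw [ev_mul, ev_mul, h4, mul_one, map_mul, h5, mul_one, ev_inv', mul_inv_cancel]
  | one => intro u h; exact ⟨0, fun m _ => ev_one ε _⟩
  | mul a b _ _ ha hb =>
    intro u h
    obtain ⟨M, h1⟩ := ha u h
    obtain ⟨M', h2⟩ := hb u (h * q a)
    refine ⟨M + M', fun m hm => ?_⟩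
    rw [ev_mul, h1 m (by omega), one_mul, mul_assoc]
    exact h2 m (by omega)
  | inv a _ ha =>
    intro u h
    obtain ⟨M, h1⟩ := ha u (h * (q a)⁻¹)
    refine ⟨M, fun m hm => ?_⟩
    rw [ev_inv, mul_assoc, h1 m hm, inv_one]

end Pool.Agent.H346.TH
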