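import Pool.Agent.H346.TH.Defs

/-! If the two end points of an edge are removed from the Cayley complex, but not the edge, the
fundamental group of the component of the edge is not finitely generated. -/

set_option autoImplicit false

namespace Pool.Agent.H346.TH

open Pool.Agent.R645.TM Pool.Agent.R645.TM.Cx

/-- a vertex as a cell -/
abbrev cv (u : ThF) : Cell Cay := Cell.v (K := Cay) u

/-- an edge as a cell -/
abbrev ce (u : ThF) (n : ℕ) : Cell Cay := Cell.e (K := Cay) (u, n)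

/-- a 2-cell as a cell -/
abbrev cf (r : Cay.F) : Cell Cay := Cell.f (K := Cay) r

/-- the 2-cell at the vertex `u` with the relator `(k, n)` -/
def fc (u : ThF) {k n : ℕ} (h : k < n) : Cay.F := (u, ⟨(k, n), h⟩)

/-- the edge of the barycentric subdivision from a 2-cell to its `j`-th edge -/
def sd (r : Cay.F) (j : ℕ) (hj : j < 4) : SdE Cay := .side r ⟨j, hj⟩

theorem sd_tgt0 (u : ThF) {k n : ℕ} (h : k < n) :
    SdE.tgt (sd (fc (u * x k) h) 0 (by norm_num)) = ce u k := by
  show ce (u * x k * (x k)⁻¹) k = _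
  rw [mul_inv_cancel_right]

theorem sd_tgt2 (u : ThF) {k n : ℕ} (h : k < n) :
    SdE.tgt (sd (fc (u * x k) h) 2 (by norm_num)) = ce (u * x n) k := by
  show ce (u * x k * (x k)⁻¹ * x n) k = _
  rw [mul_inv_cancel_right]

section

variable (e0 : Cay.E)

open Classical in
/-- the function that counts the passages through the edge `e0` -/
noncomputable def phi : SdE Cay → Multiplicative (Cay.F →₀ ℤ)
  | .side r j => if ((Cay.bd r).get j).1 = e0 then Multiplicative.ofAdd (Finsupp.single r 1) else 1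
  | .half _ _ => 1
  | .corner _ _ => 1

open Classical in
theorem phi_side (r : Cay.F) (j : Fin (Cay.bd r).length) : phi e0 (.side r j) =
    if ((Cay.bd r).get j).1 = e0 then Multiplicative.ofAdd (Finsupp.single r 1) else 1 := rfl

variable {C : Set (Cell Cay)} (h1 : Cell.v (Cay.src e0) ∈ C) (h2 : Cell.v (Cay.tgt e0) ∈ C)

include h1 h2

theorem phi_rel : ∀ r ∈ (Sd Cay).rels Cᶜ, FreeGroup.lift (phi e0) r = 1 := by
  rintro _ ⟨⟨r, i, b⟩, u, hp, rfl⟩
  have h3 : FreeGroup.mk ((Sd Cay).bd ⟨r, i, b⟩) = FreeGroup.of (SdE.side r i) *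
      FreeGroup.of (Tri.mid (K := Cay) ⟨r, i, b⟩) *
      (FreeGroup.of (SdE.corner r (if b then nxt i else i)))⁻¹ := rfl
  rw [h3, map_mul, map_mul, map_inv, FreeGroup.lift_apply_of, FreeGroup.lift_apply_of,
    FreeGroup.lift_apply_of]
  have h4 : phi e0 (Tri.mid (K := Cay) ⟨r, i, b⟩) = 1 := rfl
  have h5 : phi e0 (SdE.corner r (if b then nxt i else i)) = 1 := rfl
  rw [h4, h5, mul_one, inv_one, mul_one]
  rw [phi_side, if_neg]
  intro he
  obtain ⟨-, -, hp2⟩ := hp
  obtain ⟨-, -, hp3⟩ := hp2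
  have h6 := hp3.left
  have h7 : (Sd Cay).t (Tri.mid (K := Cay) ⟨r, i, b⟩, true) = Cell.v
      (if (if b then ((Cay.bd r).get i).2 else !((Cay.bd r).get i).2) then
        Cay.tgt ((Cay.bd r).get i).1 else Cay.src ((Cay.bd r).get i).1) := rfl
  rw [h7, he] at h6
  apply h6
  split_ifs
  all_goals first
    | exact h1
    | exact h2

/-- the homomorphism from the fundamental group -/
noncomputable def psi (c : (Cᶜ : Set (Cell Cay))) :
    (Sd Cay).Pi1 Cᶜ c →* Multiplicative (Cay.F →₀ ℤ) :=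
  (PresentedGroup.toGroup (phi_rel e0 h1 h2) :
    (Sd Cay).Gam Cᶜ →* Multiplicative (Cay.F →₀ ℤ)).comp (toGam (K := Sd Cay) (U := Cᶜ) c)

theorem psi_mk (c : (Cᶜ : Set (Cell Cay))) (l : (Sd Cay).Loop Cᶜ c) :
    psi e0 h1 h2 c (Pi1.mk l) = FreeGroup.lift (phi e0) (FreeGroup.mk l.1) := rfl

end

theorem face_far (C : Set (Cell Cay)) (hC : C.Finite) :
    ∃ M : ℕ, ∀ (u : ThF) (k n : ℕ) (h : k < n), M ≤ n → cf (fc u h) ∉ C := by
  have hinj : Function.Injective (fun r : Cay.F => cf r) := by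
    intro a b hab
    cases hab
    rfl
  have hf : {r : Cay.F | cf r ∈ C}.Finite := hC.preimage hinj.injOn
  obtain ⟨M, hM⟩ := (hf.image (fun r : Cay.F => r.2.1.2)).bddAbove
  refine ⟨M + 1, fun u k n h hn hc => ?_⟩
  have : n ≤ M := hM ⟨fc u h, hc, rfl⟩
  omega

theorem not_fg (C : Set (Cell Cay)) (hC : C.Finite) (g : ThF) (i : ℕ) (h1 : cv g ∈ C)
    (h2 : cv (g * x i) ∈ C) (h3 : ce g i ∉ C) :
    ¬ Group.FG ((Sd Cay).Pi1 Cᶜ ⟨ce g i, h3⟩) := by
  intro hfg
  obtain ⟨S, hS⟩ := Group.fg_def.1 hfg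
  let ψ := psi (C := C) ((g, i) : Cay.E) h1 h2 ⟨ce g i, h3⟩
  -- all values have support in a finite set
  classical
  let B : Finset Cay.F := S.biUnion fun y => (Multiplicative.toAdd (ψ y)).support
  have hB : ∀ y, (Multiplicative.toAdd (ψ y)).support ⊆ B := by
    intro y
    have hy : y ∈ Subgroup.closure (S : Set ((Sd Cay).Pi1 Cᶜ ⟨ce g i, h3⟩)) := by
      rw [hS]; trivial
    induction hy using Subgroup.closure_induction with
    | mem z hz => exact Finset.subset_biUnion_of_mem (fun y => (Multiplicative.toAdd (ψ y)).support) hz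
    | one => rw [map_one, toAdd_one, Finsupp.support_zero]; exact Finset.empty_subset _
    | mul a b _ _ ha hb =>
      rw [map_mul, toAdd_mul]
      exact Finsupp.support_add.trans (Finset.union_subset ha hb)
    | inv a _ ha =>
      rw [map_inv, toAdd_inv, Finsupp.support_neg]
      exact ha
  -- finite sets to be avoided
  have hinjE : Function.Injective (fun u : ThF => ce u i) := by
    intro a b hab
    cases hab
    rfl
  let A : Set ThF := {u | ce u i ∈ C} ∪ {g}
  have hA : A.Finite := (hC.preimage hinjE.injOn).union (Set.finite_singleton g)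
  have hinjF : Function.Injective (fun r : Cay.F => cf r) := by
    intro a b hab
    cases hab
    rfl
  let A' : Set ThF := Prod.fst '' {r : Cay.F | cf r ∈ C}
  have hA' : A'.Finite := (hC.preimage hinjF.injOn).image _
  obtain ⟨M1, hM1⟩ := far A hA g 1
  obtain ⟨M2, hM2⟩ := face_far C hC
  obtain ⟨M3, hM3⟩ := (B.finite_toSet.image (fun r : Cay.F => r.2.1.2)).bddAbove
  obtain ⟨m, hm⟩ : ∃ m, m = M1 + M2 + M3 + i + 1 := ⟨_, rfl⟩
  obtain ⟨P1, hP1⟩ := far A hA (g * x m) 1
  obtain ⟨P2, hP2⟩ := far A' hA' g (x i)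
  obtain ⟨p, hp⟩ : ∃ p, p = P1 + P2 + m + 1 := ⟨_, rfl⟩
  have him : i < m := by omega
  have hip : i < p := by omega
  have hmp : m < p := by omega
  have hip1 : i < p + 1 := by omega
  -- vertices
  have v1 : g * x m ∉ A := by have := hM1 m (by omega); rwa [mul_one] at this
  have v2 : g * x p ∉ A := by have := hM1 p (by omega); rwa [mul_one] at this
  have v3 : g * x m * x (p + 1) ∉ A := by have := hP1 (p + 1) (by omega); rwa [mul_one] at this
  have v4 : g * x p * x i ∉ A' := hP2 p (by omega)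
  have hrel : g * x p * x m = g * x m * x (p + 1) := by
    rw [mul_assoc, rel_x hmp, ← mul_assoc]
  -- cells
  have c1 : cf (fc (g * x i) him) ∈ Cᶜ := hM2 _ _ _ _ (by omega)
  have c2 : ce (g * x m) i ∈ Cᶜ := fun h => v1 (Or.inl h)
  have c3 : cf (fc (g * x m * x i) hip1) ∈ Cᶜ := hM2 _ _ _ _ (by omega)
  have c4 : ce (g * x m * x (p + 1)) i ∈ Cᶜ := fun h => v3 (Or.inl h)
  have c5 : cf (fc (g * x p * x i) him) ∈ Cᶜ := fun h => v4 ⟨_, h, rfl⟩
  have c6 : ce (g * x p) i ∈ Cᶜ := fun h => v2 (Or.inl h)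
  have c7 : cf (fc (g * x i) hip) ∈ Cᶜ := hM2 _ _ _ _ (by omega)
  let l : List (SdE Cay × Bool) :=
    [(sd (fc (g * x i) him) 0 (by norm_num), false), (sd (fc (g * x i) him) 2 (by norm_num), true),
     (sd (fc (g * x m * x i) hip1) 0 (by norm_num), false),
     (sd (fc (g * x m * x i) hip1) 2 (by norm_num), true),
     (sd (fc (g * x p * x i) him) 2 (by norm_num), false),
     (sd (fc (g * x p * x i) him) 0 (by norm_num), true),
     (sd (fc (g * x i) hip) 2 (by norm_num), false), (sd (fc (g * x i) hip) 0 (by norm_num), true)]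
  have hl : (Sd Cay).IsPath Cᶜ (ce g i) l (ce g i) := by
    refine ⟨h3, sd_tgt0 g him, c1, rfl, ?_⟩
    show (Sd Cay).IsPath Cᶜ (SdE.tgt (sd (fc (g * x i) him) 2 _)) _ _
    rw [sd_tgt2 g him]
    refine ⟨c2, sd_tgt0 (g * x m) hip1, c3, rfl, ?_⟩
    show (Sd Cay).IsPath Cᶜ (SdE.tgt (sd (fc (g * x m * x i) hip1) 2 _)) _ _
    rw [sd_tgt2 (g * x m) hip1]
    refine ⟨c4, ?_, c5, rfl, ?_⟩
    · show SdE.tgt (sd (fc (g * x p * x i) him) 2 _) = _
      rw [sd_tgt2 (g * x p) him, hrel]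
    show (Sd Cay).IsPath Cᶜ (SdE.tgt (sd (fc (g * x p * x i) him) 0 _)) _ _
    rw [sd_tgt0 (g * x p) him]
    refine ⟨c6, sd_tgt2 g hip, c7, rfl, ?_⟩
    show (Sd Cay).IsPath Cᶜ (SdE.tgt (sd (fc (g * x i) hip) 0 _)) _ _
    rw [sd_tgt0 g hip]
    exact ⟨h3, rfl⟩
  -- the value
  have e1 : ∀ (u : ThF) {k n : ℕ} (h : k < n), phi (g, i) (sd (fc (u * x k) h) 0 (by norm_num)) =
      if ((u, k) : ThF × ℕ) = (g, i) then Multiplicative.ofAdd (Finsupp.single (fc (u * x k) h) 1)
      else 1 := by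
    intro u k n h
    show (if ((u * x k * (x k)⁻¹, k) : ThF × ℕ) = (g, i) then _ else _) = _
    rw [mul_inv_cancel_right]
  have e2 : ∀ (u : ThF) {k n : ℕ} (h : k < n), phi (g, i) (sd (fc (u * x k) h) 2 (by norm_num)) =
      if ((u * x n, k) : ThF × ℕ) = (g, i) then Multiplicative.ofAdd (Finsupp.single (fc (u * x k) h) 1)
      else 1 := by
    intro u k n h
    show (if ((u * x k * (x k)⁻¹ * x n, k) : ThF × ℕ) = (g, i) then _ else _) = _
    rw [mul_inv_cancel_right]
  have ne : ∀ u : ThF, u ∉ A → ((u, i) : ThF × ℕ) ≠ (g, i) := by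
    intro u hu he
    exact hu (Or.inr (Prod.mk.inj he).1)
  have hval : FreeGroup.lift (phi (g, i)) (FreeGroup.mk l) =
      (Multiplicative.ofAdd (Finsupp.single (fc (g * x i) him) (1 : ℤ)))⁻¹ *
        Multiplicative.ofAdd (Finsupp.single (fc (g * x i) hip) (1 : ℤ)) := by
    rw [FreeGroup.lift_mk]
    simp only [l, List.map_cons, List.map_nil, List.prod_cons, List.prod_nil, cond_true, cond_false]
    rw [e1 g him, e2 g him, e1 (g * x m) hip1, e2 (g * x m) hip1, e2 (g * x p) him,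
      e1 (g * x p) him, e2 g hip, e1 g hip, if_pos rfl, if_neg (ne _ v1), if_neg (ne _ v3), hrel,
      if_neg (ne _ v3), if_neg (ne _ v2), if_pos rfl]
    simp only [inv_one, one_mul, mul_one]
    rw [if_neg (ne _ v1), if_neg (ne _ v2)]
    simp only [inv_one, one_mul]
  have hsup := hB (Pi1.mk ⟨l, hl⟩)
  have hmem : fc (g * x i) him ∈ (Multiplicative.toAdd (ψ (Pi1.mk ⟨l, hl⟩))).support := by
    have h5 : ψ (Pi1.mk ⟨l, hl⟩) = FreeGroup.lift (phi (g, i)) (FreeGroup.mk l) := rfl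
    rw [h5, hval, Finsupp.mem_support_iff, toAdd_mul, toAdd_inv, toAdd_ofAdd, toAdd_ofAdd,
      Finsupp.add_apply, Finsupp.neg_apply, Finsupp.single_eq_same, Finsupp.single_eq_of_ne]
    · norm_num
    · intro h
      have h6 : p = m := by
        have := congrArg (fun r : Cay.F => r.2.1.2) h
        first
          | exact this
          | exact this.symm
      omega
  have h7 : m ≤ M3 := hM3 ⟨_, hsup hmem, rfl⟩
  omega

end Pool.Agent.H346.TH
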