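import Pool.Agent.H346.TH.Push
import Pool.Agent.H346.TH.Neg
import Pool.Graph.R_seed8.R645.TM.KGen

/-! If the finite subcomplex contains each edge whose end points it contains, then the fundamental
groups of the components of its complement are finitely generated. -/

set_option autoImplicit false

namespace Pool.Agent.H346.TH

open Pool.Agent.R645.TM Pool.Agent.R645.TM.Cx

/-! Opposite vertices of a square determine the square. -/

theorem act_eq {g h : ThF} (hgh : g = h) (t : ℚ) : (act g).unop t = (act h).unop t := by rw [hgh]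

theorem act1 (k n : ℕ) (t : ℚ) : (act ((x k)⁻¹ * x n)).unop t = fw n (bw k t) := by
  rw [map_mul, map_inv, act_x, act_x]
  rfl

theorem act2 (k n : ℕ) (t : ℚ) : (act (x n * x k)).unop t = fw k (fw n t) := by
  rw [map_mul, act_x, act_x]
  rfl

theorem opp1 {k n k' n' : ℕ} (h : k < n) (h' : k' < n') (he : (x k)⁻¹ * x n = (x k')⁻¹ * x n') :
    k = k' ∧ n = n' := by
  have key : ∀ a b c d : ℕ, a < b → c < d → a < c → (x a)⁻¹ * x b ≠ (x c)⁻¹ * x d := by
    intro a b c d hab hcd hac he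
    have h1 := act_eq he ((a : ℚ) + 1)
    have h2 : (a : ℚ) + 1 ≤ b := by exact_mod_cast hab
    have h3 : (c : ℚ) + 1 ≤ d := by exact_mod_cast hcd
    have h4 : (a : ℚ) + 1 ≤ c := by exact_mod_cast hac
    rw [act1, act1] at h1
    have h5 : bw a ((a : ℚ) + 1) = a + 1 / 2 := by
      unfold bw
      rw [if_neg (by linarith), if_pos (by linarith)]
      ring
    have h6 : bw c ((a : ℚ) + 1) = a + 1 := by
      unfold bw
      rw [if_pos h4]
    rw [h5, h6] at h1
    unfold fw at h1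
    rw [if_pos (by linarith), if_pos (by linarith)] at h1
    linarith
  rcases lt_trichotomy k k' with h1 | rfl | h1
  · exact (key _ _ _ _ h h' h1 he).elim
  · exact ⟨rfl, x_inj (mul_left_cancel he)⟩
  · exact (key _ _ _ _ h' h h1 he.symm).elim

theorem opp2 {k n k' n' : ℕ} (h : k < n) (h' : k' < n') (he : x n * x k = x n' * x k') :
    k = k' ∧ n = n' := by
  have key : ∀ a b c d : ℕ, a < b → c < d → a < c → x b * x a ≠ x d * x c := by
    intro a b c d hab hcd hac he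
    have h1 := act_eq he ((a : ℚ) + 1)
    have h2 : (a : ℚ) + 1 ≤ b := by exact_mod_cast hab
    have h3 : (c : ℚ) + 1 ≤ d := by exact_mod_cast hcd
    have h4 : (a : ℚ) + 1 ≤ c := by exact_mod_cast hac
    rw [act2, act2] at h1
    have h5 : fw b ((a : ℚ) + 1) = a + 1 := by
      unfold fw
      rw [if_pos h2]
    have h6 : fw d ((a : ℚ) + 1) = a + 1 := by
      unfold fw
      rw [if_pos (by linarith)]
    have h7 : fw c ((a : ℚ) + 1) = a + 1 := by
      unfold fw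
      rw [if_pos h4]
    have h8 : fw a ((a : ℚ) + 1) = a + 2 := by
      unfold fw
      rw [if_neg (by linarith), if_pos (by linarith)]
      ring
    rw [h5, h6, h7, h8] at h1
    linarith
  rcases lt_trichotomy k k' with h1 | rfl | h1
  · exact (key _ _ _ _ h h' h1 he).elim
  · exact ⟨rfl, x_inj (mul_right_cancel he)⟩
  · exact (key _ _ _ _ h' h h1 he.symm).elim

/-! Vertices of 2-cells. -/

/-- the `j`-th vertex of a 2-cell -/
def vt (r : Cay.F) (j : Fin (Cay.bd r).length) : ThF := Cay.s ((Cay.bd r).get j)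

/-- indices -/
def ix (r : Cay.F) (j : ℕ) (hj : j < 4) : Fin (Cay.bd r).length := ⟨j, hj⟩

theorem ix_cases (r : Cay.F) (j : Fin (Cay.bd r).length) : j = ix r 0 (by norm_num) ∨
    j = ix r 1 (by norm_num) ∨ j = ix r 2 (by norm_num) ∨ j = ix r 3 (by norm_num) := by
  obtain ⟨j, hj⟩ := j
  change j < 4 at hj
  interval_cases j
  · exact Or.inl rfl
  · exact Or.inr (Or.inl rfl)
  · exact Or.inr (Or.inr (Or.inl rfl))
  · exact Or.inr (Or.inr (Or.inr rfl))

theorem vt0 (a : ThF) {k n : ℕ} (h : k < n) : vt (fc (a * x k) h) (ix _ 0 (by norm_num)) = a * x k := by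
  show a * x k * (x k)⁻¹ * x k = _
  rw [mul_inv_cancel_right]

theorem vt1 (a : ThF) {k n : ℕ} (h : k < n) : vt (fc (a * x k) h) (ix _ 1 (by norm_num)) = a := by
  show a * x k * (x k)⁻¹ = _
  rw [mul_inv_cancel_right]

theorem vt2 (a : ThF) {k n : ℕ} (h : k < n) : vt (fc (a * x k) h) (ix _ 2 (by norm_num)) = a * x n := by
  show a * x k * (x k)⁻¹ * x n = _
  rw [mul_inv_cancel_right]

theorem vt3 (a : ThF) {k n : ℕ} (h : k < n) : vt (fc (a * x k) h) (ix _ 3 (by norm_num)) =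
    a * x n * x k := by
  show a * x k * (x k)⁻¹ * x n * x k * (x (n + 1))⁻¹ * x (n + 1) = _
  rw [mul_inv_cancel_right, inv_mul_cancel_right]

theorem fc_form (r : Cay.F) : ∃ (a : ThF) (k n : ℕ) (h : k < n), r = fc (a * x k) h := by
  obtain ⟨u, ⟨⟨k, n⟩, h⟩⟩ := r
  refine ⟨u * (x k)⁻¹, k, n, h, ?_⟩
  rw [inv_mul_cancel_right]
  rfl

theorem len4 (r : Cay.F) : (Cay.bd r).length = 4 := rfl

theorem nxt_ix (r : Cay.F) (j : ℕ) (hj : j < 4) (i : ℕ) (hi : i < 4) (h : (j + 1) % 4 = i) :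
    nxt (ix r j hj) = ix r i hi := by
  apply Fin.ext
  show (j + 1) % (Cay.bd r).length = i
  rw [len4, h]

theorem vt_nxt (r : Cay.F) (j : Fin (Cay.bd r).length) : Cay.t ((Cay.bd r).get j) = vt r (nxt j) := by
  obtain ⟨a, k, n, h, rfl⟩ := fc_form r
  rcases ix_cases _ j with rfl | rfl | rfl | rfl
  · rw [nxt_ix _ 0 _ 1 (by norm_num) rfl]
    rfl
  · rw [nxt_ix _ 1 _ 2 (by norm_num) rfl]
    rfl
  · rw [nxt_ix _ 2 _ 3 (by norm_num) rfl, vt3]
    show a * x k * (x k)⁻¹ * x n * x k = _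
    rw [mul_inv_cancel_right]
  · rw [nxt_ix _ 3 _ 0 (by norm_num) rfl, vt0]
    show a * x k * (x k)⁻¹ * x n * x k * (x (n + 1))⁻¹ = _
    rw [mul_inv_cancel_right, mul_assoc a, rel_x h, ← mul_assoc, mul_inv_cancel_right]

/-- the set of the 2-cells with two opposite vertices in `A` -/
def BF (A : Set ThF) : Set Cay.F := {r | (vt r (ix r 0 (by norm_num)) ∈ A ∧ vt r (ix r 2 (by norm_num)) ∈ A) ∨
  (vt r (ix r 1 (by norm_num)) ∈ A ∧ vt r (ix r 3 (by norm_num)) ∈ A)}

theorem bf_fin {A : Set ThF} (hA : A.Finite) : (BF A).Finite := by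
  have i1 : Function.Injective (fun r : Cay.F => (vt r (ix r 0 (by norm_num)), vt r (ix r 2 (by norm_num)))) := by
    intro r r' he
    obtain ⟨a, k, n, h, rfl⟩ := fc_form r
    obtain ⟨a', k', n', h', rfl⟩ := fc_form r'
    simp only [vt0, vt2, Prod.mk.injEq] at he
    obtain ⟨h1, h2⟩ := he
    have h3 : (x k)⁻¹ * x n = (x k')⁻¹ * x n' := by
      have e1 : (x k)⁻¹ * x n = (a * x k)⁻¹ * (a * x n) := by group
      have e2 : (x k')⁻¹ * x n' = (a' * x k')⁻¹ * (a' * x n') := by group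
      rw [e1, e2, h1, h2]
    obtain ⟨rfl, rfl⟩ := opp1 h h' h3
    have := mul_right_cancel h1
    subst this
    rfl
  have i2 : Function.Injective (fun r : Cay.F => (vt r (ix r 1 (by norm_num)), vt r (ix r 3 (by norm_num)))) := by
    intro r r' he
    obtain ⟨a, k, n, h, rfl⟩ := fc_form r
    obtain ⟨a', k', n', h', rfl⟩ := fc_form r'
    simp only [vt1, vt3, Prod.mk.injEq] at he
    obtain ⟨h1, h2⟩ := he
    subst h1
    rw [mul_assoc, mul_assoc] at h2
    obtain ⟨rfl, rfl⟩ := opp2 h h' (mul_left_cancel h2)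
    rfl
  refine (((hA.prod hA).preimage i1.injOn).union ((hA.prod hA).preimage i2.injOn)).subset ?_
  rintro r (h | h)
  · exact Or.inl h
  · exact Or.inr h

/-! Relations in the group. -/

section

variable (C : Set (Cell Cay))

/-- the class of an edge of the subdivision -/
def wl (e : SdE Cay) : (Sd Cay).Gam Cᶜ := cls (K := Sd Cay) Cᶜ [(e, true)]

/-- the value of an edge -/
def eps (u : ThF) (n : ℕ) : (Sd Cay).Gam Cᶜ :=
  (wl C (.half (u, n) false))⁻¹ * wl C (.half (u, n) true)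

variable {C}

theorem tri_rel (r : Cay.F) (i : Fin (Cay.bd r).length) (b : Bool)
    (h : (Sd Cay).IsPath Cᶜ (cf r) (Tri.bd (K := Cay) ⟨r, i, b⟩) (cf r)) :
    wl C (.side r i) * wl C (Tri.mid (K := Cay) ⟨r, i, b⟩) = wl C (.corner r (if b then nxt i else i)) := by
  have h1 : cls (K := Sd Cay) Cᶜ (Tri.bd (K := Cay) ⟨r, i, b⟩) = 1 := PresentedGroup.one_of_mem ⟨⟨r, i, b⟩, _, h, rfl⟩
  have h2 : cls (K := Sd Cay) Cᶜ (Tri.bd (K := Cay) ⟨r, i, b⟩) = wl C (.side r i) *
      (wl C (Tri.mid (K := Cay) ⟨r, i, b⟩) * (wl C (.corner r (if b then nxt i else i)))⁻¹) := by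
    unfold wl
    rw [← cls_false (K := Sd Cay), ← cls_append, ← cls_append]
    rfl
  rw [h2, ← mul_assoc, mul_inv_eq_one] at h1
  exact h1

/-- the signed edge `z` as an element -/
def sg (z : Cay.E × Bool) (b : Bool) : SdE Cay := .half z.1 (if b then z.2 else !z.2)

theorem tri0 {r : Cay.F} {i : Fin (Cay.bd r).length} (h1 : cf r ∉ C)
    (h2 : Cell.e ((Cay.bd r).get i).1 ∉ C) (h3 : cv (vt r i) ∉ C) :
    wl C (.side r i) * wl C (sg ((Cay.bd r).get i) false) = wl C (.corner r i) := by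
  refine tri_rel r i false ?_
  refine ⟨h1, rfl, h2, rfl, ?_⟩
  have e : (Sd Cay).t (Tri.mid (K := Cay) ⟨r, i, false⟩, true) = cv (vt r i) := by
    show Cell.v (if (!((Cay.bd r).get i).2) then _ else _) = Cell.v (if ((Cay.bd r).get i).2 then _ else _)
    cases ((Cay.bd r).get i).2 <;> rfl
  rw [e]
  exact ⟨h3, rfl, h1, rfl⟩

theorem tri1 {r : Cay.F} {i : Fin (Cay.bd r).length} (h1 : cf r ∉ C)
    (h2 : Cell.e ((Cay.bd r).get i).1 ∉ C) (h3 : cv (vt r (nxt i)) ∉ C) :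
    wl C (.side r i) * wl C (sg ((Cay.bd r).get i) true) = wl C (.corner r (nxt i)) := by
  refine tri_rel r i true ?_
  refine ⟨h1, rfl, h2, rfl, ?_⟩
  have e : (Sd Cay).t (Tri.mid (K := Cay) ⟨r, i, true⟩, true) = cv (vt r (nxt i)) := by
    rw [← vt_nxt]
    rfl
  rw [e]
  exact ⟨h3, rfl, h1, rfl⟩

theorem edge_out (hC : IsFinSub Cay C) {z : Cay.E × Bool} (h : cv (Cay.s z) ∉ C ∨ cv (Cay.t z) ∉ C) :
    Cell.e z.1 ∉ C := by
  intro hc
  obtain ⟨h1, h2⟩ := hC.edge _ hc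
  obtain ⟨e, b⟩ := z
  cases b <;> rcases h with h | h <;> first | exact h h1 | exact h h2

/-- the value of a signed edge -/
def es (C : Set (Cell Cay)) (z : Cay.E × Bool) : (Sd Cay).Gam Cᶜ :=
  (wl C (sg z false))⁻¹ * wl C (sg z true)

theorem es_true (e : Cay.E) : es C (e, true) = eps C e.1 e.2 := rfl

theorem es_false (e : Cay.E) : es C (e, false) = (eps C e.1 e.2)⁻¹ := by
  show (wl C (.half e true))⁻¹ * wl C (.half e false) = ((wl C (.half e false))⁻¹ * wl C (.half e true))⁻¹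
  rw [mul_inv_rev, inv_inv]

theorem step (hC : IsFinSub Cay C) {r : Cay.F} {i j : Fin (Cay.bd r).length} (hij : nxt i = j)
    (h1 : cf r ∉ C) (h3 : cv (vt r i) ∉ C) (h4 : cv (vt r j) ∉ C) :
    wl C (.corner r j) = wl C (.corner r i) * es C ((Cay.bd r).get i) := by
  subst hij
  have h2 := edge_out hC (z := (Cay.bd r).get i) (Or.inl h3)
  rw [← tri1 h1 h2 h4, ← tri0 h1 h2 h3]
  unfold es
  rw [mul_assoc, mul_inv_cancel_left]

theorem sq (hC : IsFinSub Cay C) : Sq (eps C) {u | cv u ∉ C} {r : Cay.F | cf r ∈ C} := by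
  intro a k n h h1 h0 h2 h3 hr
  have hr' : cf (fc (a * x k) h) ∉ C := hr
  change cv a ∉ C at h1
  change cv (a * x k) ∉ C at h0
  change cv (a * x n) ∉ C at h2
  change cv (a * x n * x k) ∉ C at h3
  rw [← vt1 a h] at h1
  rw [← vt0 a h] at h0
  rw [← vt2 a h] at h2
  rw [← vt3 a h] at h3
  have s0 := step hC (nxt_ix _ 0 (by norm_num) 1 (by norm_num) rfl) hr' h0 h1
  have s1 := step hC (nxt_ix _ 1 (by norm_num) 2 (by norm_num) rfl) hr' h1 h2
  have s2 := step hC (nxt_ix _ 2 (by norm_num) 3 (by norm_num) rfl) hr' h2 h3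
  have s3 := step hC (nxt_ix _ 3 (by norm_num) 0 (by norm_num) rfl) hr' h3 h0
  have e0 : es C ((Cay.bd (fc (a * x k) h)).get (ix _ 0 (by norm_num))) = (eps C a k)⁻¹ := by
    show es C ((a * x k * (x k)⁻¹, k), false) = _
    rw [mul_inv_cancel_right, es_false]
  have e1 : es C ((Cay.bd (fc (a * x k) h)).get (ix _ 1 (by norm_num))) = eps C a n := by
    show es C ((a * x k * (x k)⁻¹, n), true) = _
    rw [mul_inv_cancel_right, es_true]
  have e2 : es C ((Cay.bd (fc (a * x k) h)).get (ix _ 2 (by norm_num))) = eps C (a * x n) k := by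
    show es C ((a * x k * (x k)⁻¹ * x n, k), true) = _
    rw [mul_inv_cancel_right, es_true]
  have e3 : es C ((Cay.bd (fc (a * x k) h)).get (ix _ 3 (by norm_num))) = (eps C (a * x k) (n + 1))⁻¹ := by
    show es C ((a * x k * (x k)⁻¹ * x n * x k * (x (n + 1))⁻¹, n + 1), false) = _
    rw [mul_inv_cancel_right, mul_assoc a, rel_x h, ← mul_assoc, mul_inv_cancel_right, es_false]
  rw [e0] at s0
  rw [e1, s0] at s1
  rw [e2, s1] at s2
  rw [e3, s2] at s3
  rw [mul_assoc, mul_assoc, mul_assoc, left_eq_mul, inv_mul_eq_one, ← mul_assoc, eq_mul_inv_iff_mul_eq] at s3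
  exact s3

/-- the vertices outside `C` -/
abbrev UV (C : Set (Cell Cay)) : Set ThF := {u | cv u ∉ C}

theorem uv_fin (hC : IsFinSub Cay C) : (UV C)ᶜ.Finite := by
  have i : Function.Injective (fun u : ThF => cv u) := by
    intro a b hab
    cases hab
    rfl
  refine (hC.fin.preimage i.injOn).subset ?_
  intro u hu
  by_contra h
  exact hu h

theorem df_fin (hC : IsFinSub Cay C) : {r : Cay.F | cf r ∈ C}.Finite := by
  have i : Function.Injective (fun r : Cay.F => cf r) := by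
    intro a b hab
    cases hab
    rfl
  exact hC.fin.preimage i.injOn

/-- translation of arrows -/
theorem gen_lift (hC : IsFinSub Cay C) {u : ThF} {γ : (Sd Cay).Gam Cᶜ} {v : ThF}
    (h : Gen (UV C) (eV (eps C)) u γ v) : Gen Cᶜ (kE (K := Sd Cay) Cᶜ) (cv u) γ (cv v) := by
  induction h with
  | one h => exact .one h
  | @of u g w hu hw h =>
    obtain ⟨n, rfl, rfl⟩ := h
    have he : ce u n ∉ C := edge_out hC (z := ((u, n), true)) (Or.inl hu)
    have h1 : Gen Cᶜ (kE (K := Sd Cay) Cᶜ) (ce u n) (wl C (.half (u, n) false)) (cv u) :=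
      .of he hu ⟨.half (u, n) false, rfl, rfl, rfl⟩
    have h2 : Gen Cᶜ (kE (K := Sd Cay) Cᶜ) (ce u n) (wl C (.half (u, n) true)) (cv (u * x n)) :=
      .of he hw ⟨.half (u, n) true, rfl, rfl, rfl⟩
    exact h1.inv.mul h2
  | inv _ ih => exact ih.inv
  | mul _ _ ih1 ih2 => exact ih1.mul ih2

variable (C) in
open Classical in
/-- the transport from a vertex to `g0` -/
noncomputable def ph (g0 u : ThF) : (Sd Cay).Gam Cᶜ :=
  if h : ∃ γ, Gen (UV C) (eV (eps C)) u γ g0 then h.choose else 1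

variable {g0 : ThF}

theorem ph_gen (hC : IsFinSub Cay C) (h0 : g0 ∈ UV C) {u : ThF} (hu : u ∈ UV C) :
    Gen (UV C) (eV (eps C)) u (ph C g0 u) g0 := by
  have h := conn (uv_fin hC) (eps C) hu h0
  unfold ph
  rw [dif_pos h]
  exact h.choose_spec

theorem ph_edge (hC : IsFinSub Cay C) (h0 : g0 ∈ UV C) {u : ThF} {n : ℕ} (hu : u ∈ UV C)
    (hw : u * x n ∈ UV C) : ph C g0 u = eps C u n * ph C g0 (u * x n) := by
  have h1 : Gen (UV C) (eV (eps C)) u (eps C u n) (u * x n) := Gen.of hu hw ⟨n, rfl, rfl⟩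
  have h2 := (ph_gen hC h0 hu).mul (h1.mul (ph_gen hC h0 hw)).inv
  exact mul_inv_eq_one.1 (closed (uv_fin hC) (df_fin hC) (sq hC) h2)

variable (C) in
open Classical in
/-- the transport from an edge to `g0` -/
noncomputable def pe (g0 : ThF) (e : Cay.E) : (Sd Cay).Gam Cᶜ :=
  if cv (Cay.src e) ∉ C then wl C (.half e false) * ph C g0 (Cay.src e)
  else wl C (.half e true) * ph C g0 (Cay.tgt e)

theorem pe_src {e : Cay.E} (h : cv (Cay.src e) ∉ C) :
    pe C g0 e = wl C (.half e false) * ph C g0 (Cay.src e) := by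
  unfold pe
  rw [if_pos h]

theorem pe_tgt (hC : IsFinSub Cay C) (h0 : g0 ∈ UV C) {e : Cay.E} (h : cv (Cay.tgt e) ∉ C) :
    pe C g0 e = wl C (.half e true) * ph C g0 (Cay.tgt e) := by
  by_cases h1 : cv (Cay.src e) ∈ C
  · unfold pe
    rw [if_neg (not_not.2 h1)]
  · rw [pe_src h1, ph_edge hC h0 (n := e.2) h1 h]
    unfold eps
    rw [← mul_assoc, mul_inv_cancel_left]

theorem pe_s (hC : IsFinSub Cay C) (h0 : g0 ∈ UV C) {z : Cay.E × Bool} (h : cv (Cay.s z) ∉ C) :
    pe C g0 z.1 = wl C (sg z false) * ph C g0 (Cay.s z) := by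
  obtain ⟨e, b⟩ := z
  cases b
  · exact pe_tgt hC h0 h
  · exact pe_src h

theorem pe_t (hC : IsFinSub Cay C) (h0 : g0 ∈ UV C) {z : Cay.E × Bool} (h : cv (Cay.t z) ∉ C) :
    pe C g0 z.1 = wl C (sg z true) * ph C g0 (Cay.t z) := by
  obtain ⟨e, b⟩ := z
  cases b
  · exact pe_src h
  · exact pe_tgt hC h0 h

variable (C) in
/-- the transport from a 2-cell to `g0` through the `j`-th corner -/
noncomputable def th (g0 : ThF) (r : Cay.F) (j : Fin (Cay.bd r).length) : (Sd Cay).Gam Cᶜ :=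
  wl C (.corner r j) * ph C g0 (vt r j)

theorem th_side (hC : IsFinSub Cay C) (h0 : g0 ∈ UV C) {r : Cay.F} {i : Fin (Cay.bd r).length}
    (h1 : cf r ∉ C) (h3 : cv (vt r i) ∉ C) :
    th C g0 r i = wl C (.side r i) * pe C g0 ((Cay.bd r).get i).1 := by
  have h2 := edge_out hC (z := (Cay.bd r).get i) (Or.inl h3)
  rw [pe_s hC h0 h3, ← mul_assoc, tri0 h1 h2 h3]
  rfl

theorem th_side' (hC : IsFinSub Cay C) (h0 : g0 ∈ UV C) {r : Cay.F} {i : Fin (Cay.bd r).length}
    (h1 : cf r ∉ C) (h3 : cv (vt r (nxt i)) ∉ C) :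
    th C g0 r (nxt i) = wl C (.side r i) * pe C g0 ((Cay.bd r).get i).1 := by
  have h4 : cv (Cay.t ((Cay.bd r).get i)) ∉ C := by rwa [vt_nxt]
  have h2 := edge_out hC (z := (Cay.bd r).get i) (Or.inr h4)
  rw [pe_t hC h0 h4, ← mul_assoc, tri1 h1 h2 h3, vt_nxt]
  rfl

theorem th_adj (hC : IsFinSub Cay C) (h0 : g0 ∈ UV C) {r : Cay.F} {i j : Fin (Cay.bd r).length}
    (hij : nxt i = j) (h1 : cf r ∉ C) (h3 : cv (vt r i) ∉ C) (h4 : cv (vt r j) ∉ C) :
    th C g0 r i = th C g0 r j := by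
  subst hij
  rw [th_side hC h0 h1 h3, th_side' hC h0 h1 h4]

theorem th_all (hC : IsFinSub Cay C) (h0 : g0 ∈ UV C) {r : Cay.F} (hr : r ∉ BF (UV C)ᶜ)
    (h1 : cf r ∉ C) (i j : Fin (Cay.bd r).length) (h3 : cv (vt r i) ∉ C) (h4 : cv (vt r j) ∉ C) :
    th C g0 r i = th C g0 r j := by
  have a01 := th_adj hC h0 (nxt_ix r 0 (by norm_num) 1 (by norm_num) rfl) h1
  have a12 := th_adj hC h0 (nxt_ix r 1 (by norm_num) 2 (by norm_num) rfl) h1
  have a23 := th_adj hC h0 (nxt_ix r 2 (by norm_num) 3 (by norm_num) rfl) h1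
  have a30 := th_adj hC h0 (nxt_ix r 3 (by norm_num) 0 (by norm_num) rfl) h1
  have hr' : (cv (vt r (ix r 0 (by norm_num))) ∉ C ∨ cv (vt r (ix r 2 (by norm_num))) ∉ C) ∧
      (cv (vt r (ix r 1 (by norm_num))) ∉ C ∨ cv (vt r (ix r 3 (by norm_num))) ∉ C) := by
    constructor
    · by_contra hc
      rw [not_or] at hc
      exact hr (Or.inl hc)
    · by_contra hc
      rw [not_or] at hc
      exact hr (Or.inr hc)
  obtain ⟨r02, r13⟩ := hr'
  have a02 : cv (vt r (ix r 0 (by norm_num))) ∉ C → cv (vt r (ix r 2 (by norm_num))) ∉ C →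
      th C g0 r (ix r 0 (by norm_num)) = th C g0 r (ix r 2 (by norm_num)) := by
    intro p0 p2
    rcases r13 with p | p
    · exact (a01 p0 p).trans (a12 p p2)
    · exact (a30 p p0).symm.trans (a23 p2 p).symm
  have a13 : cv (vt r (ix r 1 (by norm_num))) ∉ C → cv (vt r (ix r 3 (by norm_num))) ∉ C →
      th C g0 r (ix r 1 (by norm_num)) = th C g0 r (ix r 3 (by norm_num)) := by
    intro p1 p3
    rcases r02 with p | p
    · exact (a01 p p1).symm.trans (a30 p3 p).symm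
    · exact (a12 p1 p).trans (a23 p p3)
  rcases ix_cases _ i with rfl | rfl | rfl | rfl <;> rcases ix_cases _ j with rfl | rfl | rfl | rfl <;>
    first
      | rfl
      | exact a01 h3 h4
      | exact a12 h3 h4
      | exact a23 h3 h4
      | exact a30 h3 h4
      | exact a02 h3 h4
      | exact a13 h3 h4
      | exact (a01 h4 h3).symm
      | exact (a12 h4 h3).symm
      | exact (a23 h4 h3).symm
      | exact (a30 h4 h3).symm
      | exact (a02 h4 h3).symm
      | exact (a13 h4 h3).symm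

variable (C) in
open Classical in
/-- the transport from a 2-cell to `g0` -/
noncomputable def pf (g0 : ThF) (r : Cay.F) : (Sd Cay).Gam Cᶜ :=
  if cv (vt r (ix r 0 (by norm_num))) ∉ C then th C g0 r (ix r 0 (by norm_num))
  else th C g0 r (ix r 2 (by norm_num))

theorem pf_ex {r : Cay.F} (hr : r ∉ BF (UV C)ᶜ) :
    ∃ i, cv (vt r i) ∉ C ∧ pf C g0 r = th C g0 r i := by
  by_cases h : cv (vt r (ix r 0 (by norm_num))) ∈ C
  · refine ⟨ix r 2 (by norm_num), fun hc => hr (Or.inl ⟨not_not.2 h, not_not.2 hc⟩), ?_⟩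
    unfold pf
    rw [if_neg (not_not.2 h)]
  · refine ⟨ix r 0 (by norm_num), h, ?_⟩
    unfold pf
    rw [if_pos h]

theorem pf_corner (hC : IsFinSub Cay C) (h0 : g0 ∈ UV C) {r : Cay.F} (hr : r ∉ BF (UV C)ᶜ)
    (h1 : cf r ∉ C) {i : Fin (Cay.bd r).length} (h3 : cv (vt r i) ∉ C) :
    pf C g0 r = th C g0 r i := by
  obtain ⟨j, h4, h5⟩ := pf_ex (g0 := g0) hr
  rw [h5]
  exact th_all hC h0 hr h1 j i h4 h3

theorem full_out (hfull : ∀ g n, cv g ∈ C → cv (g * x n) ∈ C → ce g n ∈ C) {z : Cay.E × Bool}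
    (h : Cell.e z.1 ∉ C) : cv (Cay.s z) ∉ C ∨ cv (Cay.t z) ∉ C := by
  by_contra hc
  rw [not_or, not_not, not_not] at hc
  obtain ⟨⟨g, n⟩, b⟩ := z
  cases b
  · exact h (hfull g n hc.2 hc.1)
  · exact h (hfull g n hc.1 hc.2)

theorem pf_side (hC : IsFinSub Cay C) (h0 : g0 ∈ UV C)
    (hfull : ∀ g n, cv g ∈ C → cv (g * x n) ∈ C → ce g n ∈ C) {r : Cay.F} (hr : r ∉ BF (UV C)ᶜ)
    (h1 : cf r ∉ C) {i : Fin (Cay.bd r).length} (h2 : Cell.e ((Cay.bd r).get i).1 ∉ C) :
    pf C g0 r = wl C (.side r i) * pe C g0 ((Cay.bd r).get i).1 := by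
  rcases full_out hfull h2 with h | h
  · rw [pf_corner hC h0 hr h1 h, th_side hC h0 h1 h]
  · rw [vt_nxt] at h
    rw [pf_corner hC h0 hr h1 h, th_side' hC h0 h1 h]

end

section

variable {C : Set (Cell Cay)}

open Classical in
theorem fgs (hC : IsFinSub Cay C) (hfull : ∀ g n, cv g ∈ C → cv (g * x n) ∈ C → ce g n ∈ C) :
    FGs Cᶜ (Gen Cᶜ (kE (K := Sd Cay) Cᶜ)) := by
  obtain ⟨m, hm⟩ := far (UV C)ᶜ (uv_fin hC) 1 1
  obtain ⟨g0, h0⟩ : ∃ g0, g0 ∈ UV C := ⟨_, by
    have := hm m le_rfl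
    rwa [Set.notMem_compl_iff] at this⟩
  have hB : (BF (UV C)ᶜ).Finite := bf_fin (uv_fin hC)
  have hfin : Finite {r : Cay.F // r ∈ BF (UV C)ᶜ} := hB
  let J := Option {r : Cay.F // r ∈ BF (UV C)ᶜ}
  let R : J → Cell Cay := fun j => match j with
    | none => cv g0
    | some r => cf r.1
  let ρ : Cell Cay → J := fun c => match c with
    | .v _ => none
    | .e _ => none
    | .f r => if h : r ∈ BF (UV C)ᶜ then some ⟨r, h⟩ else none
  let τ : Cell Cay → (Sd Cay).Gam Cᶜ := fun c => match c with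
    | .v u => ph C g0 u
    | .e e => pe C g0 e
    | .f r => if r ∈ BF (UV C)ᶜ then 1 else pf C g0 r
  have ρ1 : ∀ r (h : r ∈ BF (UV C)ᶜ), ρ (cf r) = some ⟨r, h⟩ := fun r h => dif_pos h
  have ρ2 : ∀ r, r ∉ BF (UV C)ᶜ → ρ (cf r) = none := fun r h => dif_neg h
  have τ1 : ∀ r, r ∈ BF (UV C)ᶜ → τ (cf r) = 1 := fun r h => if_pos h
  have τ2 : ∀ r, r ∉ BF (UV C)ᶜ → τ (cf r) = pf C g0 r := fun r h => if_neg h
  let Z : Set (Cell Cay × (Sd Cay).Gam Cᶜ × Cell Cay) := ⋃ r ∈ BF (UV C)ᶜ,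
    ((Set.range fun j => (cf r, wl C (.side r j), SdE.tgt (SdE.side r j))) ∪
      Set.range fun j => (cf r, wl C (.corner r j), SdE.tgt (SdE.corner r j)))
  have hZ : Z.Finite := by
    refine hB.biUnion fun r _ => ?_
    exact (Set.finite_range _).union (Set.finite_range _)
  refine fgs_of_data R (fun _ => ⊥) (fun _ => bot_fg) ρ τ ?_ ?_ Z hZ ?_
  · intro u hu g hg
    rw [Subgroup.mem_bot] at hg
    subst hg
    refine .one ?_
    cases u with
    | v u => exact h0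
    | e e => exact h0
    | f r =>
      by_cases h : r ∈ BF (UV C)ᶜ
      · rw [ρ1 r h]; exact hu
      · rw [ρ2 r h]; exact h0
  · intro u hu
    cases u with
    | v u => exact gen_lift hC (ph_gen hC h0 hu)
    | e e =>
      show Gen _ _ _ (pe C g0 e) (cv g0)
      rcases full_out hfull (z := (e, true)) hu with h | h
      · change cv (Cay.src e) ∉ C at h
        rw [pe_src h]
        exact (Gen.of hu h ⟨.half e false, rfl, rfl, rfl⟩).mul (gen_lift hC (ph_gen hC h0 h))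
      · change cv (Cay.tgt e) ∉ C at h
        rw [pe_tgt hC h0 h]
        exact (Gen.of hu h ⟨.half e true, rfl, rfl, rfl⟩).mul (gen_lift hC (ph_gen hC h0 h))
    | f r =>
      by_cases h : r ∈ BF (UV C)ᶜ
      · rw [ρ1 r h, τ1 r h]
        exact .one hu
      · rw [ρ2 r h, τ2 r h]
        obtain ⟨i, h1, h2⟩ := pf_ex (g0 := g0) h
        rw [h2]
        exact (Gen.of hu h1 ⟨.corner r i, rfl, rfl, rfl⟩).mul (gen_lift hC (ph_gen hC h0 h1))
  · rintro u g w hu hw ⟨e, rfl, rfl, rfl⟩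
    cases e with
    | half e b =>
      right
      refine ⟨rfl, ?_⟩
      rw [Subgroup.mem_bot, mul_assoc, inv_mul_eq_one]
      show pe C g0 e = _
      cases b with
      | false => exact pe_src hw
      | true => exact pe_tgt hC h0 hw
    | side r i =>
      by_cases h : r ∈ BF (UV C)ᶜ
      · left
        exact Set.mem_biUnion h (Or.inl ⟨i, rfl⟩)
      · right
        refine ⟨ρ2 r h, ?_⟩
        rw [Subgroup.mem_bot, mul_assoc, inv_mul_eq_one]
        exact (τ2 r h).trans (pf_side hC h0 hfull h hu hw)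
    | corner r i =>
      by_cases h : r ∈ BF (UV C)ᶜ
      · left
        exact Set.mem_biUnion h (Or.inr ⟨i, rfl⟩)
      · right
        refine ⟨ρ2 r h, ?_⟩
        rw [Subgroup.mem_bot, mul_assoc, inv_mul_eq_one]
        exact (τ2 r h).trans (pf_corner hC h0 h hu hw)

theorem fg (hC : IsFinSub Cay C) (hfull : ∀ g n, cv g ∈ C → cv (g * x n) ∈ C → ce g n ∈ C)
    (c : (Cᶜ : Set (Cell Cay))) : Group.FG ((Sd Cay).Pi1 Cᶜ c) :=
  pi1_fg_of_fgs (K := Sd Cay) (U := Cᶜ) (fgs hC hfull) c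

end

end Pool.Agent.H346.TH
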