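import Pool.Agent.H346.TH.Ev

/-! Pushing paths to infinity: closed paths have trivial values, and any two vertices are
connected. -/

set_option autoImplicit false

namespace Pool.Agent.H346.TH

open Pool.Agent.R645.TM

variable {Γ : Type} [Group Γ] (ε : ThF → ℕ → Γ)

/-- the edges as arrows -/
def eV (u : ThF) (γ : Γ) (v : ThF) : Prop := ∃ n, v = u * x n ∧ γ = ε u n

/-- the squares with vertices in `U` and 2-cell not in `D` -/
def Sq (U : Set ThF) (D : Set (ThF × Ix)) : Prop := ∀ (a : ThF) {k n : ℕ} (h : k < n), a ∈ U →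
  a * x k ∈ U → a * x n ∈ U → a * x n * x k ∈ U → ((a * x k, ⟨(k, n), h⟩) : ThF × Ix) ∉ D →
  ε a k * ε (a * x k) (n + 1) = ε a n * ε (a * x n) k

variable {ε} {U : Set ThF} {D : Set (ThF × Ix)}

theorem coc_of_sq (h : Sq ε U D) : Coc ε (Uᶜ ∪ Prod.fst '' D) := by
  intro a k n hkn h1 h2 h3 h4
  have m : ∀ u : ThF, u ∉ Uᶜ ∪ Prod.fst '' D → u ∈ U := by
    intro u hu
    by_contra hc
    exact hu (Or.inl hc)
  exact h a hkn (m _ h1) (m _ h2) (m _ h3) (m _ h4) (fun hc => h2 (Or.inr ⟨_, hc, rfl⟩))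

/-- the statement of the push lemma -/
def Pu (ε : ThF → ℕ → Γ) (u : ThF) (γ : Γ) (v : ThF) : Prop :=
  ∃ (w : FreeGroup ℕ) (e : ℤ) (P : ℕ), v = u * q w ∧ ∀ p p' : ℕ, P ≤ p → P ≤ p' →
    (p' : ℤ) = p + e → x p * q w = q w * x p' ∧ γ * ε v p' = ε u p * ev ε (u * x p) w

theorem push (hU : Uᶜ.Finite) (hD : D.Finite) (h : Sq ε U D) {u : ThF} {γ : Γ} {v : ThF}
    (hg : Gen U (eV ε) u γ v) : Pu ε u γ v := by
  induction hg with
  | @one u hu =>
    refine ⟨1, 0, 0, by rw [map_one, mul_one], fun p p' _ _ hp => ?_⟩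
    have : p' = p := by omega
    subst this
    rw [map_one, mul_one, one_mul, one_mul, ev_one, mul_one]
    exact ⟨rfl, rfl⟩
  | @of u g w hu hw he =>
    obtain ⟨i, rfl, rfl⟩ := he
    obtain ⟨M1, h1⟩ := far Uᶜ hU u 1
    obtain ⟨M2, h2⟩ := far Uᶜ hU u (x i)
    obtain ⟨M3, h3⟩ := (hD.image (fun r : ThF × Ix => r.2.1.2)).bddAbove
    refine ⟨FreeGroup.of i, 1, M1 + M2 + M3 + i + 1, rfl, fun p p' hp _ hpp => ?_⟩
    have : p' = p + 1 := by omega
    subst this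
    have hip : i < p := by omega
    have k1 := h1 p (by omega)
    have k2 := h2 p (by omega)
    rw [mul_one, Set.notMem_compl_iff] at k1
    rw [Set.notMem_compl_iff] at k2
    refine ⟨rel_x hip, ?_⟩
    rw [ev_of]
    refine h u hip hu hw k1 k2 ?_
    intro hc
    have := h3 ⟨_, hc, rfl⟩
    change p ≤ M3 at this
    omega
  | @inv u g w _ ih =>
    obtain ⟨z, e, P, rfl, h1⟩ := ih
    refine ⟨z⁻¹, -e, P, by rw [map_inv, mul_inv_cancel_right], fun p p' hp hp' hpp => ?_⟩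
    obtain ⟨h2, h3⟩ := h1 p' p hp' hp (by omega)
    constructor
    · rw [map_inv, eq_inv_mul_iff_mul_eq, ← mul_assoc, ← h2, mul_inv_cancel_right]
    · have e1 : u * q z * x p = u * x p' * q z := by rw [mul_assoc, ← h2, mul_assoc]
      rw [e1, ev_inv', inv_mul_eq_iff_eq_mul, ← mul_assoc, eq_mul_inv_iff_mul_eq]
      exact h3.symm
  | @mul u g v h' w _ _ ih1 ih2 =>
    obtain ⟨z, e, P, rfl, h1⟩ := ih1
    obtain ⟨z', e', P', rfl, h2⟩ := ih2
    refine ⟨z * z', e + e', P + P' + e.natAbs + e'.natAbs, by rw [map_mul, mul_assoc],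
      fun p p'' hp hp'' hpp => ?_⟩
    obtain ⟨p', hp'⟩ : ∃ p' : ℕ, (p' : ℤ) = p + e := ⟨(p + e).toNat, by omega⟩
    obtain ⟨k1, k2⟩ := h1 p p' (by omega) (by omega) hp'
    obtain ⟨k3, k4⟩ := h2 p' p'' (by omega) (by omega) (by omega)
    constructor
    · rw [map_mul, ← mul_assoc, k1, mul_assoc, k3, mul_assoc]
    · have e1 : u * q z * x p' = u * x p * q z := by rw [mul_assoc, ← k1, mul_assoc]
      rw [mul_assoc, k4, ← mul_assoc, k2, ev_mul, e1, mul_assoc]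

/-- closed paths have trivial values -/
theorem closed (hU : Uᶜ.Finite) (hD : D.Finite) (h : Sq ε U D) {u : ThF} {γ : Γ}
    (hg : Gen U (eV ε) u γ u) : γ = 1 := by
  obtain ⟨w, e, P, h1, h2⟩ := push hU hD h hg
  have hw : q w = 1 := by
    have := h1.symm
    rwa [mul_eq_left] at this
  obtain ⟨M, h3⟩ := sup_one (hU.union (hD.image _)) (coc_of_sq h) w hw u 1
  obtain ⟨p', hp'⟩ : ∃ p' : ℕ, (p' : ℤ) = (P + M + e.natAbs : ℕ) + e :=
    ⟨((P + M + e.natAbs : ℕ) + e).toNat, by omega⟩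
  obtain ⟨k1, k2⟩ := h2 (P + M + e.natAbs) p' (by omega) (by omega) hp'
  rw [hw, mul_one, one_mul] at k1
  have k3 := x_inj k1
  rw [← k3] at k2
  have k4 := h3 (P + M + e.natAbs) (by omega)
  rw [mul_one] at k4
  rw [k4, mul_one] at k2
  exact mul_eq_right.1 k2

/-- far paths -/
theorem far_path (hU : Uᶜ.Finite) (ε : ThF → ℕ → Γ) (w : FreeGroup ℕ) : ∀ u h : ThF, ∃ M : ℕ,
    ∀ m, M ≤ m → Gen U (eV ε) (u * x m * h) (ev ε (u * x m * h) w) (u * x m * h * q w) := by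
  induction w using FreeGroup.induction_on with
  | C1 =>
    intro u h
    obtain ⟨M, h1⟩ := far Uᶜ hU u h
    refine ⟨M, fun m hm => ?_⟩
    have := h1 m hm
    rw [Set.notMem_compl_iff] at this
    rw [map_one, mul_one, ev_one]
    exact .one this
  | of n =>
    intro u h
    obtain ⟨M, h1⟩ := far Uᶜ hU u h
    obtain ⟨M', h2⟩ := far Uᶜ hU u (h * x n)
    refine ⟨M + M', fun m hm => ?_⟩
    have k1 := h1 m (by omega)
    have k2 := h2 m (by omega)
    rw [Set.notMem_compl_iff] at k1 k2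
    rw [ev_of, q_of]
    exact .of k1 (by rwa [← mul_assoc] at k2) ⟨n, rfl, rfl⟩
  | inv_of n ih =>
    intro u h
    obtain ⟨M, h1⟩ := ih u (h * (x n)⁻¹)
    refine ⟨M, fun m hm => ?_⟩
    have k1 := (h1 m hm).inv
    rw [q_of, ← mul_assoc, inv_mul_cancel_right] at k1
    rw [ev_inv, map_inv, q_of]
    exact k1
  | mul a b ha hb =>
    intro u h
    obtain ⟨M, h1⟩ := ha u h
    obtain ⟨M', h2⟩ := hb u (h * q a)
    refine ⟨M + M', fun m hm => ?_⟩
    have k1 := h1 m (by omega)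
    have k2 := h2 m (by omega)
    rw [← mul_assoc] at k2
    rw [ev_mul, map_mul, ← mul_assoc]
    exact k1.mul k2

/-- commutation with words -/
theorem comm (w : FreeGroup ℕ) : ∃ (e : ℤ) (P : ℕ), ∀ p p' : ℕ, P ≤ p → P ≤ p' →
    (p' : ℤ) = p + e → x p * q w = q w * x p' := by
  induction w using FreeGroup.induction_on with
  | C1 =>
    refine ⟨0, 0, fun p p' _ _ hp => ?_⟩
    have : p' = p := by omega
    subst this
    rw [map_one, mul_one, one_mul]
  | of n =>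
    refine ⟨1, n + 1, fun p p' h1 _ hp => ?_⟩
    have : p' = p + 1 := by omega
    subst this
    exact rel_x (by omega)
  | inv_of n ih =>
    obtain ⟨e, P, h1⟩ := ih
    refine ⟨-e, P, fun p p' hp hp' hpp => ?_⟩
    have h2 := h1 p' p hp' hp (by omega)
    rw [map_inv, eq_inv_mul_iff_mul_eq, ← mul_assoc, ← h2, mul_inv_cancel_right]
  | mul a b ha hb =>
    obtain ⟨e, P, h1⟩ := ha
    obtain ⟨e', P', h2⟩ := hb
    refine ⟨e + e', P + P' + e.natAbs + e'.natAbs, fun p p'' hp hp'' hpp => ?_⟩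
    obtain ⟨p', hp'⟩ : ∃ p' : ℕ, (p' : ℤ) = p + e := ⟨(p + e).toNat, by omega⟩
    rw [map_mul, ← mul_assoc, h1 p p' (by omega) (by omega) hp', mul_assoc,
      h2 p' p'' (by omega) (by omega) (by omega), mul_assoc]

/-- any two vertices are connected -/
theorem conn (hU : Uᶜ.Finite) (ε : ThF → ℕ → Γ) {u v : ThF} (hu : u ∈ U) (hv : v ∈ U) :
    ∃ γ, Gen U (eV ε) u γ v := by
  obtain ⟨w, hw⟩ : ∃ w, q w = u⁻¹ * v := QuotientGroup.mk'_surjective _ _
  obtain ⟨e, P, h1⟩ := comm w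
  obtain ⟨M1, h2⟩ := far_path hU ε w u 1
  obtain ⟨M2, h3⟩ := far Uᶜ hU u 1
  obtain ⟨M3, h4⟩ := far Uᶜ hU v 1
  obtain ⟨p, hp⟩ : ∃ p, p = P + M1 + M2 + M3 + e.natAbs := ⟨_, rfl⟩
  obtain ⟨p', hp'⟩ : ∃ p' : ℕ, (p' : ℤ) = p + e := ⟨(p + e).toNat, by omega⟩
  have k1 := h1 p p' (by omega) (by omega) hp'
  have k2 := h2 p (by omega)
  have k3 := h3 p (by omega)
  have k4 := h4 p' (by omega)
  rw [Set.notMem_compl_iff, mul_one] at k3 k4
  rw [mul_one] at k2
  have e1 : u * x p * q w = v * x p' := by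
    rw [mul_assoc, k1, hw, ← mul_assoc, mul_inv_cancel_left]
  rw [e1] at k2
  have k5 : Gen U (eV ε) u (ε u p) (u * x p) := .of hu k3 ⟨p, rfl, rfl⟩
  have k6 : Gen U (eV ε) v (ε v p') (v * x p') := .of hv k4 ⟨p', rfl, rfl⟩
  exact ⟨_, (k5.mul k2).mul k6.inv⟩

end Pool.Agent.H346.TH
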